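import Pool.Agent.Helper96_LAX.Stmts

/-!
# Squad LAX, module DCP: closed walks of `F' ∪ M` decompose
-/

set_option autoImplicit false

namespace Pool.Agent.LAX.H63

open Pool.Agent.LAX Relation

theorem dcp : DcpStmt := by
  intro V F' M Y X hF hX hY hC
  set rF : V → V → Prop := fun a b => (a, b) ∈ F' with hrF
  set rC : V → V → Prop := fun a b => (a, b) ∈ comp (pth F' Y X) M with hrC
  -- normal form of a walk
  have key : ∀ a b : V, TransGen (fun a b => (a, b) ∈ F' ∪ M) a b →
      TransGen rF a b ∨ ∃ x y y' : V, ReflTransGen rF a x ∧ (x, y) ∈ M ∧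
        ReflTransGen rC y y' ∧ y' ∈ Y ∧ ReflTransGen rF y' b := by
    intro a b hab
    induction hab with
    | single h =>
      rcases h with h | h
      · exact Or.inl (TransGen.single h)
      · exact Or.inr ⟨_, _, _, ReflTransGen.refl, h, ReflTransGen.refl,
          hY _ ⟨_, h⟩, ReflTransGen.refl⟩
    | tail h1 h2 ih =>
      rename_i b c
      rcases h2 with h2 | h2
      · rcases ih with ih | ⟨x, y, y', i1, i2, i3, i4, i5⟩
        · exact Or.inl (TransGen.tail ih h2)
        · exact Or.inr ⟨x, y, y', i1, i2, i3, i4, ReflTransGen.tail i5 h2⟩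
      · rcases ih with ih | ⟨x, y, y', i1, i2, i3, i4, i5⟩
        · exact Or.inr ⟨b, c, c, ih.to_reflTransGen, h2, ReflTransGen.refl,
            hY _ ⟨_, h2⟩, ReflTransGen.refl⟩
        · refine Or.inr ⟨x, y, c, i1, i2, ReflTransGen.tail i3 ?_, hY _ ⟨_, h2⟩,
            ReflTransGen.refl⟩
          exact ⟨b, ⟨i4, hX _ ⟨_, h2⟩, i5⟩, h2⟩
  intro a ha
  rcases key a a ha with h | ⟨x, y, y', i1, i2, i3, i4, i5⟩
  · exact hF a h
  · refine hC y ?_
    refine TransGen.tail' i3 ?_
    exact ⟨x, ⟨i4, hX _ ⟨_, i2⟩, i5.trans i1⟩, i2⟩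

end Pool.Agent.LAX.H63
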